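import Mathlib

open Set Filter Topology Complex
open scoped Real ComplexConjugate

namespace Pool.Agent.H.MP_c53602_gt

/-- The determinant of two plane vectors. -/
def det (u v : ℂ) : ℝ := u.re * v.im - u.im * v.re

lemma seq (m : ℕ) (a β w : ℕ → ℝ) (c C : ℝ) (hc : 0 < c) (β0 : ∀ k, 0 < β k) (hw : ∀ k, w k ≤ 1)
    (ha : ∀ j, a (j + 1) ≤ a j) (b : ℕ → ℝ) (hb : ∀ n, b n = ∑ i ∈ Finset.range n, β i)
    (H1 : ∀ j, (b j - b (j - m)) * (a j - a (j + 1)) ≤ w (j + 1) * β j)
    (H2 : ∀ k, c + w (k + 1) ≤ a (k + 1) - a (k + m + 1)) (H3 : ∀ K, b (K + m) - b K ≤ C) : False := by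
  have key : ∀ K, c * b K ≤ b (K + m) - b K := fun K => by
    let I : ℕ → ℕ → ℝ := fun j k => if k < j ∧ j ≤ k + m then β k * (a j - a (j + 1)) else 0
    have e1 : ∀ j ∈ Finset.range (K + m), ∑ k ∈ Finset.range (K + m), I j k ≤ w (j + 1) * β j := by
      intro j hj
      rw [Finset.mem_range] at hj
      refine le_of_eq_of_le ?_ (H1 j)
      rw [← Finset.sum_filter, ← Finset.sum_mul, hb, hb, ← Finset.sum_Ico_eq_sub _ (Nat.sub_le _ _)]
      congr 2; ext k; simp; omega
    have e2 : ∀ k ∈ Finset.range K, (c + w (k + 1)) * β k ≤ ∑ j ∈ Finset.range (K + m), I j k := by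
      intro k hk
      rw [Finset.mem_range] at hk
      rw [← Finset.sum_filter, ← Finset.mul_sum, show (Finset.range (K + m)).filter
        (fun j => k < j ∧ j ≤ k + m) = Finset.Ico (k + 1) (k + m + 1) by ext j; simp; omega,
        Finset.sum_Ico_eq_sub _ (by omega), Finset.sum_range_sub', Finset.sum_range_sub', mul_comm]
      exact mul_le_mul_of_nonneg_left (by linarith [H2 k]) (β0 k).le
    have e3 := (Finset.sum_le_sum e2).trans ((Finset.sum_le_sum_of_subset_of_nonneg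
      (Finset.range_mono (Nat.le_add_right K m)) fun k _ _ => Finset.sum_nonneg fun j _ => by
        simp only [I]; split_ifs
        exacts [mul_nonneg (β0 k).le (sub_nonneg.2 (ha j)), le_rfl]).trans
      (Finset.sum_comm.le.trans (Finset.sum_le_sum e1)))
    have e4 : ∑ i ∈ Finset.range m, w (K + i + 1) * β (K + i) ≤ ∑ i ∈ Finset.range m, β (K + i) :=
      Finset.sum_le_sum fun i _ => mul_le_of_le_one_left (β0 _).le (hw _)
    simp only [add_mul, Finset.sum_add_distrib, ← Finset.mul_sum, Finset.sum_range_add] at e3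
    simp only [hb, Finset.sum_range_add]
    linarith
  have mo : Monotone b := monotone_nat_of_le_succ fun n => by
    rw [hb, hb, Finset.sum_range_succ]; linarith [β0 n]
  have T := tendsto_atTop_ciSup mo ⟨C / c, by
    rintro _ ⟨K, rfl⟩; rw [le_div_iff₀ hc]; linarith [key K, H3 K]⟩
  have := ge_of_tendsto ((T.comp (tendsto_add_atTop_nat m)).sub T) (b := c * b 1)
    ((eventually_ge_atTop 1).mono fun K h => (mul_le_mul_of_nonneg_left (mo h) hc.le).trans (key K))
  rw [hb 1, Finset.sum_range_one, sub_self] at this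
  linarith [mul_pos hc (β0 0)]

lemma cone (u v : ℂ) (hu : u ≠ 0) (h0 : 0 ≤ arg u) (h1 : arg u < π) (h2 : 0 ≤ v.im)
    (h3 : 0 ≤ det u v) : arg u * (‖v‖ + v.re) ≤ 2 * v.im := by
  rcases eq_or_ne v 0 with rfl | v0
  · simp
  have a := arg_nonneg_iff.2 h2
  have b := arg_le_pi v
  have n1 := norm_pos_iff.2 hu
  have n2 := norm_pos_iff.2 v0
  have l : arg u ≤ arg v := by
    by_contra k
    have := Real.sin_neg_of_neg_of_neg_pi_lt (x := arg v - arg u) (by linarith) (by linarith)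
    rw [det, ← norm_mul_cos_arg u, ← norm_mul_sin_arg u, ← norm_mul_cos_arg v,
      ← norm_mul_sin_arg v] at h3
    rw [Real.sin_sub] at this
    nlinarith [mul_pos n1 n2]
  obtain ⟨h, e⟩ : ∃ h, arg v = 2 * h := ⟨arg v / 2, by ring⟩
  have c : 0 ≤ Real.cos h := Real.cos_nonneg_of_mem_Icc ⟨by linarith, by linarith⟩
  have d : h * Real.cos h ≤ Real.sin h := by
    rcases c.eq_or_lt with k | k
    · rw [← k, mul_zero]; exact Real.sin_nonneg_of_nonneg_of_le_pi (by linarith) (by linarith)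
    · have := Real.le_tan (x := h) (by linarith) (lt_of_le_of_ne (by linarith) fun j => by simp [j] at k)
      rwa [Real.tan_eq_sin_div_cos, le_div_iff₀ k] at this
  rw [← norm_mul_cos_arg v, ← norm_mul_sin_arg v, e, Real.cos_two_mul, Real.sin_two_mul]
  have : arg u * Real.cos h ^ 2 ≤ 2 * Real.sin h * Real.cos h := by
    nlinarith [mul_le_mul_of_nonneg_right d c, mul_le_mul_of_nonneg_right l (sq_nonneg (Real.cos h))]
  nlinarith

lemma addarg (x y : ℂ) (hx : x ≠ 0) (hy : 0 < y.im) (h0 : 0 ≤ arg x) (h1 : arg x < π)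
    (h : 0 < (x * y).im) : arg (x * y) = arg x + arg y := by
  have y0 : y ≠ 0 := fun k => by simp [k] at hy
  have a := arg_nonneg_iff.2 hy.le
  have b := arg_lt_pi_iff.2 (.inr hy.ne')
  refine (arg_mul_eq_add_arg_iff hx y0).2 ⟨by linarith [Real.pi_pos], not_lt.1 fun k => ?_⟩
  have := Real.sin_pos_of_pos_of_lt_pi (x := arg x + arg y - π) (by linarith) (by linarith)
  rw [mul_im, ← norm_mul_cos_arg x, ← norm_mul_sin_arg x, ← norm_mul_cos_arg y,
    ← norm_mul_sin_arg y] at h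
  rw [Real.sin_sub_pi, Real.sin_add] at this
  nlinarith [mul_pos (norm_pos_iff.2 hx) (norm_pos_iff.2 y0)]

lemma det_div (u v z : ℂ) (hz : z ≠ 0) : det (u / z) (v / z) = det u v / normSq z := by
  have := normSq_pos.2 hz
  simp only [det, div_re, div_im]
  field_simp
  rw [normSq_apply]; ring

lemma det_sub (u v w : ℂ) : det u (v - w) = det u v - det u w := by simp [det]; ring

lemma core (Γ : ℝ → ℂ) (τ : ℕ → ℝ) (B l : ℝ) (m : ℕ) (hB : 0 < B) (hl : 1 < m * l)
    (hτ : StrictAnti τ) (hD : ∀ j, ‖Γ (τ j)‖ ≤ B * Real.exp (-l * j))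
    (hch : ∀ j, ‖Γ (τ j) - Γ (τ (j + 1))‖ ≤ B * Real.exp (-l * j) - B * Real.exp (-l * (j + 1 : ℕ)))
    (var : ∀ j (f : ℝ → ℝ), (∀ x y, τ (j + 1) ≤ x → x ≤ y → y ≤ τ j → ‖Γ y - Γ x‖ ≤ f y - f x) →
      B * Real.exp (-l * j) - B * Real.exp (-l * (j + 1 : ℕ)) ≤ f (τ j) - f (τ (j + 1)))
    (mono : ∀ i, StrictMonoOn (fun s => det (Γ (τ i)) (Γ s)) (Icc (τ (i + m + 1)) (τ i))) : False := by
  obtain ⟨z, hz⟩ : ∃ z : ℕ → ℂ, ∀ j, z j = Γ (τ j) := ⟨_, fun _ => rfl⟩
  obtain ⟨s, hs⟩ : ∃ s : ℕ → ℝ, ∀ j, s j = B * Real.exp (-l * j) := ⟨_, fun _ => rfl⟩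
  simp only [← hz, ← hs] at hD hch var mono
  have s0 : ∀ j, 0 < s j := fun j => by rw [hs]; positivity
  have ng : ∀ i j, i < j → j ≤ i + m + 1 → det (z i) (z j) < 0 := fun i j h k => by
    have := mono i ⟨hτ.antitone k, (hτ h).le⟩ ⟨(hτ (by omega)).le, le_rfl⟩ (hτ h)
    simp only [← hz] at this
    rwa [show det (z i) (z i) = 0 by simp [det, mul_comm]] at this
  have z0 : ∀ j, z j ≠ 0 := fun j h => by simpa [h, det] using ng j (j + 1) (by omega) (by omega)
  have im : ∀ i j, i < j → j ≤ i + m + 1 → 0 < (z i / z j).im := fun i j h k => by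
    have := det_div (z i) (z j) (z j) (z0 j)
    rw [div_self (z0 j)] at this
    have a := div_neg_of_neg_of_pos (ng i j h k) (normSq_pos.2 (z0 j))
    rw [← this] at a
    simpa [det] using a
  obtain ⟨b, hb⟩ : ∃ b : ℕ → ℝ, ∀ n, b n = ∑ i ∈ Finset.range n, arg (z i / z (i + 1)) :=
    ⟨_, fun _ => rfl⟩
  have ar : ∀ i d, d ≤ m + 1 → 0 ≤ arg (z i / z (i + d)) ∧ arg (z i / z (i + d)) < π := fun i d h => by
    rcases d.eq_zero_or_pos with rfl | k
    · simp [z0 i, Real.pi_pos]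
    · have := im i (i + d) (by omega) (by omega)
      exact ⟨arg_nonneg_iff.2 this.le, arg_lt_pi_iff.2 (.inr this.ne')⟩
  have ad : ∀ i d, d ≤ m + 1 → b (i + d) - b i = arg (z i / z (i + d)) := fun i d h => by
    induction d with
    | zero => simp [z0 i]
    | succ d ih =>
      have e : z i / z (i + (d + 1)) = z i / z (i + d) * (z (i + d) / z (i + d + 1)) := by
        have := z0 (i + d); rw [← add_assoc]; field_simp
      rw [e, addarg _ _ (div_ne_zero (z0 _) (z0 _)) (im _ _ (by omega) (by omega))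
        (ar i d (by omega)).1 (ar i d (by omega)).2 (e ▸ im _ _ (by omega) (by omega)),
        ← ih (by omega), ← add_assoc, hb (i + d + 1), Finset.sum_range_succ, ← hb]
      ring
  have O0 : ∀ j, 0 < (s j + ‖z j‖) / 2 := fun j => by have := s0 j; positivity
  have O1 : ∀ j, (s (j + 1) + ‖z (j + 1)‖) / 2 ≤ (s j + ‖z j‖) / 2 := fun j => by
    linarith [hch j, norm_sub_norm_le (z (j + 1)) (z j), norm_sub_rev (z j) (z (j + 1))]
  refine seq m (fun j => Real.log ((s j + ‖z j‖) / 2)) (fun j => arg (z j / z (j + 1)))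
    (fun j => ‖z j‖ / ((s j + ‖z j‖) / 2)) (m * l - 1) π (by linarith) (fun k => ?_)
    (fun k => by rw [div_le_one (O0 k)]; linarith [hD k])
    (fun j => Real.log_le_log (O0 _) (O1 j)) b hb (fun j => ?_) (fun k => ?_)
    fun K => by rw [ad K m (by omega)]; exact arg_le_pi _
  · have := im k (k + 1) (by omega) (by omega)
    exact (arg_nonneg_iff.2 this.le).lt_of_ne fun h => this.ne' (arg_eq_zero_iff.1 h.symm).2
  · obtain ⟨i, hi⟩ : ∃ i, i = j - m := ⟨_, rfl⟩
    obtain ⟨d, rfl⟩ : ∃ d, j = i + d := ⟨j - i, by omega⟩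
    have dm : d ≤ m := by omega
    rw [← hi, ad i d (by omega)]
    obtain ⟨F0, F1⟩ := ar i d (by omega)
    have β0 := (ar (i + d) 1 (by omega)).1
    generalize hj : i + d = j at *
    have n0 := norm_pos_iff.2 (z0 j)
    have n1 := norm_pos_iff.2 (z0 (j + 1))
    suffices h : arg (z i / z j) * ((s j + ‖z j‖) / 2 - (s (j + 1) + ‖z (j + 1)‖) / 2) ≤
        ‖z (j + 1)‖ * arg (z j / z (j + 1)) by
      have := Real.log_le_sub_one_of_pos (div_pos (O0 j) (O0 (j + 1)))
      rw [Real.log_div (O0 _).ne' (O0 _).ne', div_sub_one (O0 _).ne'] at this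
      refine (mul_le_mul_of_nonneg_left this F0).trans ?_
      rw [← mul_div_assoc, div_mul_eq_mul_div]
      exact div_le_div_of_nonneg_right h (O0 _).le
    rcases F0.eq_or_lt with k | k
    · rw [← k, zero_mul]; positivity
    have v := var j (fun x => ‖z j‖ * (2 * (Γ x / z j).im / arg (z i / z j) - (Γ x / z j).re))
      fun x y h1 h2 h3 => by
        have m1 : ∀ i, i ≤ j → j ≤ i + m → 0 ≤ det (z i / z j) ((Γ y - Γ x) / z j) := fun i p q => by
          have p1 := hτ.antitone p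
          have p2 : τ (i + m + 1) ≤ τ (j + 1) := hτ.antitone (by omega)
          rw [det_div _ _ _ (z0 j), det_sub]
          exact div_nonneg (sub_nonneg.2 ((mono i).monotoneOn ⟨by linarith, by linarith⟩
            ⟨by linarith, by linarith⟩ h2)) (normSq_nonneg _)
        have := cone _ _ (div_ne_zero (z0 _) (z0 _)) F0 F1
          (by simpa [z0 j, det] using m1 j le_rfl (by omega)) (m1 i (by omega) (by omega))
        rw [norm_div, sub_div, sub_re, sub_im, ← le_div_iff₀' k, ← le_sub_iff_add_le,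
          div_le_iff₀' n0] at this
        exact this.trans (le_of_eq (by ring))
    simp only [← hz, div_self (z0 j), one_re, one_im] at v
    have r1 : ‖z j‖ * (z (j + 1) / z j).re ≤ ‖z (j + 1)‖ := by
      have := re_le_norm (z (j + 1) / z j)
      rwa [norm_div, le_div_iff₀' n0] at this
    have r2 : -(‖z j‖ * (z (j + 1) / z j).im) ≤ ‖z (j + 1)‖ * arg (z j / z (j + 1)) := by
      rw [← inv_div, inv_im, normSq_eq_norm_sq, ← norm_mul_sin_arg, norm_div]
      refine le_of_eq_of_le (b := ‖z (j + 1)‖ * Real.sin (arg (z j / z (j + 1)))) (by field_simp) ?_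
      exact mul_le_mul_of_nonneg_left (Real.sin_le β0) n1.le
    have v2 := mul_le_mul_of_nonneg_left v F0
    generalize arg (z i / z j) = F at *
    have : F * (‖z j‖ * (2 * 0 / F - 1) - ‖z j‖ * (2 * (z (j + 1) / z j).im / F - (z (j + 1) / z j).re)) =
      -F * ‖z j‖ - 2 * (‖z j‖ * (z (j + 1) / z j).im) + F * (‖z j‖ * (z (j + 1) / z j).re) := by
      field_simp; ring
    rw [this] at v2
    linarith [mul_le_mul_of_nonneg_left r1 F0]
  · have a : Real.log ((s (k + m + 1) + ‖z (k + m + 1)‖) / 2) ≤ Real.log (s (k + 1)) - m * l := by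
      refine (Real.log_le_log (O0 _) (by linarith [hD (k + m + 1)] : _ ≤ s (k + m + 1))).trans ?_
      simp only [hs, Real.log_mul hB.ne' (Real.exp_pos _).ne', Real.log_exp]
      push_cast; linarith
    have c := Real.log_le_sub_one_of_pos (div_pos (s0 (k + 1)) (O0 (k + 1)))
    rw [Real.log_div (s0 _).ne' (O0 _).ne'] at c
    have d : ‖z (k + 1)‖ / ((s (k + 1) + ‖z (k + 1)‖) / 2) +
      s (k + 1) / ((s (k + 1) + ‖z (k + 1)‖) / 2) = 2 := by
      have := O0 (k + 1); rw [← add_div, div_eq_iff this.ne']; ring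
    linarith

lemma chain (Γ : ℝ → ℂ) (τ : ℕ → ℝ) (m : ℕ) (hm : 1 ≤ m) (hτ : StrictAnti τ)
    (hc : ∀ j, ContinuousOn Γ (Icc (τ j) (τ 0)))
    (inj : ∀ i, ∀ t ∈ Icc (τ (i + 1)) (τ i), InjOn (fun s => det (Γ t) (Γ s)) (Icc (τ (i + m + 1)) t))
    (h0 : StrictMonoOn (fun s => det (Γ (τ 0)) (Γ s)) (Icc (τ (0 + m + 1)) (τ 0))) (i : ℕ) :
    StrictMonoOn (fun s => det (Γ (τ i)) (Γ s)) (Icc (τ (i + m + 1)) (τ i)) := by
  have dz : ∀ u, det u u = 0 := fun u => by simp [det, mul_comm]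
  induction i with
  | zero => exact h0
  | succ i ih =>
    have a1 : τ (i + 1) < τ i := hτ (by omega)
    have a2 : τ (i + 2) < τ (i + 1) := hτ (by omega)
    have a3 : τ (i + m + 1) ≤ τ (i + 2) := hτ.antitone (by omega)
    have a4 : τ (i + 1 + m + 1) ≤ τ (i + 2) := hτ.antitone (by omega)
    have a5 : τ i ≤ τ 0 := hτ.antitone (by omega)
    refine (ContinuousOn.strictMonoOn_of_injOn_Icc' (by linarith) ?_
      (inj (i + 1) _ ⟨a2.le, le_rfl⟩)).resolve_right fun h => ?_
    · have := (hc (i + 1 + m + 1)).mono (Icc_subset_Icc_right (a1.le.trans a5))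
      unfold det; fun_prop
    have b1 := ih ⟨a3, by linarith⟩ ⟨by linarith, le_rfl⟩ (a2.trans a1)
    have b2 := h ⟨a4, a2.le⟩ ⟨by linarith, le_rfl⟩ a2
    simp only [dz] at b1 b2
    have c : ContinuousOn (fun x => det (Γ x) (Γ (τ (i + 2)))) (Icc (τ (i + 1)) (τ i)) := by
      have := (hc (i + 1)).mono (Icc_subset_Icc_right a5)
      unfold det; fun_prop
    obtain ⟨x, hx, e⟩ := intermediate_value_Icc' a1.le c ⟨b1.le, b2.le⟩
    have := inj i x hx (x₁ := τ (i + 2)) ⟨a3, by linarith [hx.1]⟩ (x₂ := x)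
      ⟨by linarith [hx.1], le_rfl⟩ (by simpa [dz] using e)
    linarith [hx.1]

end Pool.Agent.H.MP_c53602_gt
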